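import Pool.Agent.KS6_77.QPoly.Main
import Pool.Graph.R_seed8.Results.MP_64a944_ag.DisproofFano

set_option autoImplicit false

namespace Pool.Agent.KS6_77.QPoly

open Pool.Agent.Y166.GM (PP Rep IsProjVar)
open Pool.Agent.Y166.SM (MorBi)
open Pool.Agent.Y198.MC (XX nefX)
open Pool.Agent.Y166.LT

/-- Every residue class modulo every `m ≥ 1` contains a class `(e, d)` in `A` with `c e d ≥ 2` and a
class `(e, d)` in `A` with `c e d ≤ 1`. -/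
def BothInEveryResidueClass (A : Set (ℕ × ℕ)) (c : ℕ → ℕ → ℕ∞) : Prop :=
  ∀ m r s : ℕ, 1 ≤ m →
    (∃ e d : ℕ, e ≡ r [MOD m] ∧ d ≡ s [MOD m] ∧ (e, d) ∈ A ∧ 2 ≤ c e d) ∧
    ∃ e d : ℕ, e ≡ r [MOD m] ∧ d ≡ s [MOD m] ∧ (e, d) ∈ A ∧ c e d ≤ 1

/-- The classes of morphisms in the translate by `α` of the nef cone of curves. -/
def nefTranslate (k : Type) [Field k] (N : ℕ) (α : ℤ × ℤ) : Set (ℕ × ℕ) :=
  {β | (((β.1 : ℝ) - α.1, (β.2 : ℝ) - α.2) : ℝ × ℝ) ∈ nefX k N}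

/-- `S e d` contains all Manin components of the space of the morphisms of class `(e, d)`, and
consists of irreducible components. -/
def IsManinCount (k : Type) [Field k] (N : ℕ)
    (S : (e d : ℕ) → Set (Set (MorBi (XX k N) e d))) : Prop :=
  ∀ e d, maninL (2 * N - 1) (XX k N) e d ⊆ S e d ∧
    S e d ⊆ irreducibleComponents (MorBi (XX k N) e d)

theorem nefTranslate_eq (k : Type) [Field k] (N : ℕ) (α : ℤ × ℤ)
    (h : nefX k N = {β | 0 ≤ β.1 ∧ 3 * β.1 ≤ 2 * β.2}) : nefTranslate k N α = tr α := by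
  ext β
  show (((β.1 : ℝ) - α.1, (β.2 : ℝ) - α.2) : ℝ × ℝ) ∈ nefX k N ↔
    0 ≤ (β.1 : ℤ) - α.1 ∧ 3 * ((β.1 : ℤ) - α.1) ≤ 2 * ((β.2 : ℤ) - α.2)
  rw [h]
  show (0 ≤ (β.1 : ℝ) - α.1 ∧ 3 * ((β.1 : ℝ) - α.1) ≤ 2 * ((β.2 : ℝ) - α.2)) ↔ _
  constructor
  · rintro ⟨h1, h2⟩
    exact ⟨by exact_mod_cast h1, by exact_mod_cast h2⟩
  · rintro ⟨h1, h2⟩
    exact ⟨by exact_mod_cast h1, by exact_mod_cast h2⟩

theorem final (k : Type) [Field k] [IsAlgClosed k] [CharZero k] (N : ℕ) (hN : 7 ≤ N) :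
    IsProjVar (XX k N) ∧ AntiCan (XX k N) (2 * N - 1) (N - 6) 4 ∧
    nefX k N = {β | 0 ≤ β.1 ∧ 3 * β.1 ≤ 2 * β.2} ∧
    (∀ e d : ℕ, 3 * e + 5 ≤ 2 * d → d + 1 ≤ 2 * e →
      2 ≤ (maninL (2 * N - 1) (XX k N) e d).encard) ∧
    (∀ e d : ℕ, 3 * e ≤ d → (irreducibleComponents (MorBi (XX k N) e d)).encard ≤ 1) ∧
    ∀ S, IsManinCount k N S → ∀ α : ℤ × ℤ,
      ¬ IsQuasiPolynomialOn (nefTranslate k N α) (fun e d => (S e d).encard) ∧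
      BothInEveryResidueClass (nefTranslate k N α) (fun e d => (S e d).encard) := by
  obtain ⟨h1, h2, h3, h4, h5, -⟩ := Pool.Agent.Results.MP_64a944_ag.DisproofFano.result k N hN
  refine ⟨h1, h2, h3, h4, h5, fun S hS α => ?_⟩
  have htwo : ∀ e d : ℕ, 3 * e + 5 ≤ 2 * d → d + 1 ≤ 2 * e → 2 ≤ (S e d).encard :=
    fun e d a b => (h4 e d a b).trans (Set.encard_le_encard (hS e d).1)
  have hone : ∀ e d : ℕ, 3 * e ≤ d → (S e d).encard ≤ 1 :=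
    fun e d a => (Set.encard_le_encard (hS e d).2).trans (h5 e d a)
  rw [nefTranslate_eq k N α h3]
  refine ⟨not_quasi _ htwo hone α, fun m r s hm => ⟨?_, ?_⟩⟩
  · obtain ⟨e, d, a1, a2, a3, a4, a5⟩ := exists_two α m r s hm
    exact ⟨e, d, a1, a2, a3, htwo e d a4 a5⟩
  · obtain ⟨e, d, a1, a2, a3, a4⟩ := exists_one α m r s hm
    exact ⟨e, d, a1, a2, a3, hone e d a4⟩

end Pool.Agent.KS6_77.QPoly
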