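import Mathlib

set_option autoImplicit false

open MvPolynomial

namespace Pool.Agent.KS6_77.QPoly

/-- On the set `A` of classes the numbers `c e d` are finite and given by a quasi-polynomial: for
some period `m ≥ 1` and some polynomials `P i j`, `c e d` is the value of `P (e mod m) (d mod m)` at
`(e, d)`. -/
def IsQuasiPolynomialOn (A : Set (ℕ × ℕ)) (c : ℕ → ℕ → ℕ∞) : Prop :=
  ∃ (m : ℕ) (P : ℕ → ℕ → MvPolynomial (Fin 2) ℚ), 1 ≤ m ∧
    ∀ e d : ℕ, (e, d) ∈ A → ∃ n : ℕ, c e d = n ∧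
      (n : ℚ) = eval ![(e : ℚ), (d : ℚ)] (P (e % m) (d % m))

/-- The classes `(e, d)` in the translate by `α` of the cone `0 ≤ x`, `3 x ≤ 2 y`. -/
def tr (α : ℤ × ℤ) : Set (ℕ × ℕ) :=
  {β | 0 ≤ (β.1 : ℤ) - α.1 ∧ 3 * ((β.1 : ℤ) - α.1) ≤ 2 * ((β.2 : ℤ) - α.2)}

/-- both regions meet every residue class -/
theorem exists_two (α : ℤ × ℤ) (m r s : ℕ) (hm : 1 ≤ m) :
    ∃ e d : ℕ, e ≡ r [MOD m] ∧ d ≡ s [MOD m] ∧ (e, d) ∈ tr α ∧ 3 * e + 5 ≤ 2 * d ∧
      d + 1 ≤ 2 * e := by
  obtain ⟨A, hA⟩ : ∃ A : ℕ, A = α.1.natAbs + α.2.natAbs := ⟨_, rfl⟩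
  set t : ℕ := 3 * r + s + 5 + 3 * A with ht
  have htm : t ≤ t * m := Nat.le_mul_of_pos_right _ hm
  have h1' : -(A : ℤ) ≤ α.1 ∧ α.1 ≤ A := by omega
  have h2' : -(A : ℤ) ≤ α.2 ∧ α.2 ≤ A := by omega
  generalize hu : t * m = u at htm
  refine ⟨r + 4 * (t * m), s + 7 * (t * m), ?_, ?_, ?_, ?_, ?_⟩
  · have : 4 * (t * m) = (4 * t) * m := by ring
    rw [this]
    exact (Nat.modEq_iff_dvd' (by omega)).2 (by simp) |>.symm
  · have : 7 * (t * m) = (7 * t) * m := by ring
    rw [this]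
    exact (Nat.modEq_iff_dvd' (by omega)).2 (by simp) |>.symm
  · rw [hu]
    simp only [tr, Set.mem_ofPred_eq]
    push_cast
    constructor <;> omega
  · rw [hu]; omega
  · rw [hu]; omega

theorem exists_one (α : ℤ × ℤ) (m r s : ℕ) (hm : 1 ≤ m) :
    ∃ e d : ℕ, e ≡ r [MOD m] ∧ d ≡ s [MOD m] ∧ (e, d) ∈ tr α ∧ 3 * e ≤ d := by
  obtain ⟨A, hA⟩ : ∃ A : ℕ, A = α.1.natAbs + α.2.natAbs := ⟨_, rfl⟩
  set t : ℕ := 3 * r + s + 5 + 3 * A with ht
  have htm : t ≤ t * m := Nat.le_mul_of_pos_right _ hm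
  have h1' : -(A : ℤ) ≤ α.1 ∧ α.1 ≤ A := by omega
  have h2' : -(A : ℤ) ≤ α.2 ∧ α.2 ≤ A := by omega
  generalize hu : t * m = u at htm
  refine ⟨r + (t * m), s + 7 * (t * m), ?_, ?_, ?_, ?_⟩
  · exact (Nat.modEq_iff_dvd' (by omega)).2 (by simp) |>.symm
  · have : 7 * (t * m) = (7 * t) * m := by ring
    rw [this]
    exact (Nat.modEq_iff_dvd' (by omega)).2 (by simp) |>.symm
  · rw [hu]
    simp only [tr, Set.mem_ofPred_eq]
    push_cast
    constructor <;> omega
  · rw [hu]; omega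

/-- the numbers are not given by a quasi-polynomial -/
theorem not_quasi (c : ℕ → ℕ → ℕ∞) (htwo : ∀ e d : ℕ, 3 * e + 5 ≤ 2 * d → d + 1 ≤ 2 * e → 2 ≤ c e d)
    (hone : ∀ e d : ℕ, 3 * e ≤ d → c e d ≤ 1) (α : ℤ × ℤ) : ¬ IsQuasiPolynomialOn (tr α) c := by
  rintro ⟨m, P, hm, hP⟩
  obtain ⟨A, hA⟩ : ∃ A : ℕ, A = 3 * (α.1.natAbs + α.2.natAbs) + 5 := ⟨_, rfl⟩
  have h1' : -(A : ℤ) ≤ 3 * α.1 ∧ 3 * α.1 ≤ A := by omega
  have h2' : -(A : ℤ) ≤ 3 * α.2 ∧ 3 * α.2 ≤ A := by omega
  -- the polynomial in the coordinates `(x, y)`, `e = m x`, `d = m (3 x + y)`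
  let R : MvPolynomial (Fin 2) ℚ :=
    bind₁ ![C (m : ℚ) * X 0, C (m : ℚ) * (C 3 * X 0 + X 1)] (P 0 0)
  have hR : ∀ x y : ℚ, eval ![x, y] R = eval ![(m : ℚ) * x, m * (3 * x + y)] (P 0 0) := by
    intro x y
    simp only [R]
    have e : (fun i => aeval ![x, y]
        ((![C (m : ℚ) * X 0, C (m : ℚ) * (C 3 * X 0 + X 1)] : Fin 2 → MvPolynomial (Fin 2) ℚ) i)) =
        ![(m : ℚ) * x, m * (3 * x + y)] := by
      funext i
      fin_cases i
      · simp
      · simp
    rw [← aeval_eq_eval, aeval_bind₁, e, aeval_eq_eval]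
  have hcase : R = 0 ∨ R = 1 := by
    have hz : R * (R - 1) = 0 := by
      apply funext_set (fun _ : Fin 2 => {q : ℚ | ∃ n : ℕ, A ≤ n ∧ q = n})
      · intro _
        have hinj : Function.Injective (fun n : ℕ => ((A + n : ℕ) : ℚ)) := fun a b h => by
          have h' : ((A + a : ℕ) : ℚ) = ((A + b : ℕ) : ℚ) := h
          have : A + a = A + b := by exact_mod_cast h'
          omega
        refine (Set.infinite_range_of_injective hinj).mono ?_
        rintro _ ⟨n, rfl⟩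
        exact ⟨A + n, Nat.le_add_right _ _, rfl⟩
      · intro v hv
        obtain ⟨a, ha, hva⟩ := hv 0 trivial
        obtain ⟨b, hb, hvb⟩ := hv 1 trivial
        have hv' : v = ![(a : ℚ), (b : ℚ)] := by
          funext i
          fin_cases i
          · exact hva
          · exact hvb
        have hma : a ≤ m * a := Nat.le_mul_of_pos_left _ hm
        have hmb : b ≤ m * b := Nat.le_mul_of_pos_left _ hm
        have hmem : (m * a, m * (3 * a + b)) ∈ tr α := by
          rw [Nat.mul_add, Nat.mul_left_comm]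
          generalize m * a = u at hma
          generalize m * b = w at hmb
          simp only [tr, Set.mem_ofPred_eq]
          push_cast
          constructor <;> omega
        obtain ⟨n, hn, hne⟩ := hP _ _ hmem
        rw [Nat.mul_mod_right, Nat.mul_mod_right] at hne
        have hle : c (m * a) (m * (3 * a + b)) ≤ 1 := by
          apply hone
          rw [Nat.mul_add, Nat.mul_left_comm]
          omega
        rw [hn] at hle
        have hn1 : n ≤ 1 := by exact_mod_cast hle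
        have e1 : eval v R = n := by
          rw [hv', hR, hne]
          push_cast
          rfl
        rw [map_mul, map_sub, map_one, map_zero, e1]
        interval_cases n <;> norm_num
    rcases mul_eq_zero.1 hz with h | h
    · exact Or.inl h
    · exact Or.inr (sub_eq_zero.1 h)
  -- a class with at least two components
  obtain ⟨t, ht⟩ : ∃ t : ℕ, t = 3 * A + 5 := ⟨_, rfl⟩
  have htm : t ≤ m * t := Nat.le_mul_of_pos_left _ hm
  have hmem : (m * (4 * t), m * (7 * t)) ∈ tr α := by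
    have e1 : m * (4 * t) = 4 * (m * t) := by ring
    have e2 : m * (7 * t) = 7 * (m * t) := by ring
    rw [e1, e2]
    generalize m * t = u at htm
    simp only [tr, Set.mem_ofPred_eq]
    push_cast
    constructor <;> omega
  obtain ⟨n, hn, hne⟩ := hP _ _ hmem
  rw [Nat.mul_mod_right, Nat.mul_mod_right] at hne
  have hge : 2 ≤ c (m * (4 * t)) (m * (7 * t)) := by
    have e1 : m * (4 * t) = 4 * (m * t) := by ring
    have e2 : m * (7 * t) = 7 * (m * t) := by ring
    rw [e1, e2]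
    apply htwo <;> omega
  rw [hn] at hge
  have hn2 : 2 ≤ n := by exact_mod_cast hge
  have e3 : eval ![4 * (t : ℚ), 7 * t - 12 * t] R = n := by
    have hvec : ![((m * (4 * t) : ℕ) : ℚ), ((m * (7 * t) : ℕ) : ℚ)] =
        ![(m : ℚ) * (4 * t), m * (3 * (4 * t) + (7 * t - 12 * t))] := by
      funext i
      fin_cases i
      · show ((m * (4 * t) : ℕ) : ℚ) = (m : ℚ) * (4 * t)
        push_cast
        ring
      · show ((m * (7 * t) : ℕ) : ℚ) = (m : ℚ) * (3 * (4 * t) + (7 * t - 12 * t))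
        push_cast
        ring
    rw [hR, hne, hvec]
  rcases hcase with h | h
  · rw [h, map_zero] at e3
    have : (n : ℚ) = 0 := e3.symm
    have : n = 0 := by exact_mod_cast this
    omega
  · rw [h, map_one] at e3
    have : (n : ℚ) = 1 := e3.symm
    have : n = 1 := by exact_mod_cast this
    omega

end Pool.Agent.KS6_77.QPoly
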